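import Pool.Agent.X233.NVL.Main

/-!
# MP_606b74_al, Q1: the bound `|G| ≤ n(G)^2` fails for perfect centreless finite groups

For every exponent `c` there is a finite perfect group `G` with trivial centre such that
`|G| > n(G)^c`, where `n(G)` is the largest size of a conjugacy class. The case `c = 2` answers
Q1 in the negative (this is the negated form of the problem), and no other exponent works.

The groups are the groups of block matrices `[[h, x, s, r], [0, 1, u, t], [0, 0, h, w], [0, 0, 0, 1]]`
over `ZMod 5` with `h` in `SL 2` and block sizes `2, m, 2, m`.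
-/

set_option autoImplicit false

namespace Pool.Agent.Results.MP_606b74_al.NoPolynomialBound

/-- `n(G)`: the largest size of a conjugacy class of the (finite) group `G`. -/
noncomputable def maxClassSize (G : Type) [Group G] : ℕ :=
  ⨆ x : G, Nat.card {y : G // ∃ g : G, y = g * x * g⁻¹}

/-- For every `c` there is a finite perfect centreless group `G` with `n(G) ^ c < |G|`. -/
theorem result : ∀ c : ℕ, ∃ (G : Type) (_ : Group G), Finite G ∧
    commutator G = ⊤ ∧ Subgroup.center G = ⊥ ∧ maxClassSize G ^ c < Nat.card G := by
  intro c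
  refine ⟨Pool.Agent.X233.NVL.Grp (ZMod 5) (8 * c + 8), inferInstance, inferInstance,
    Pool.Agent.X233.NVL.Grp.perfect (by omega),
    Pool.Agent.X233.NVL.Grp.center_eq_bot (by omega) (by decide), ?_⟩
  have h : maxClassSize (Pool.Agent.X233.NVL.Grp (ZMod 5) (8 * c + 8)) =
      Pool.Agent.X233.NVL.maxClass (Pool.Agent.X233.NVL.Grp (ZMod 5) (8 * c + 8)) := by
    unfold maxClassSize Pool.Agent.X233.NVL.maxClass
    congr 1
    funext x
    apply Nat.card_congr
    apply Equiv.subtypeEquivRight
    intro y
    change _ ↔ IsConj x y
    rw [isConj_iff]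
    constructor
    · rintro ⟨g, hg⟩; exact ⟨g, hg.symm⟩
    · rintro ⟨g, hg⟩; exact ⟨g, hg.symm⟩
  rw [h]
  exact Pool.Agent.X233.NVL.main c

end Pool.Agent.Results.MP_606b74_al.NoPolynomialBound
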